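import Pool.Agent.H99.LU.CStmts

/-!
Project LU, part C, module LES: dimensions in a short exact sequence of complexes.
-/

set_option autoImplicit false

open scoped BigOperators Topology

noncomputable section

namespace Pool.LU

section

variable {F : Type} [Field F] {X Y : Type} [AddCommGroup X] [Module F X]
  [FiniteDimensional F X] [AddCommGroup Y] [Module F Y]

/-- rank-nullity for the restriction to a submodule -/
theorem les_rn (G : Submodule F X) (g : X →ₗ[F] Y) :
    Module.finrank F ↥(G ⊓ LinearMap.ker g) + Module.finrank F ↥(G.map g) =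
      Module.finrank F ↥G := by
  have h1 := LinearMap.finrank_range_add_finrank_ker (g.domRestrict G)
  rw [LinearMap.range_domRestrict, LinearMap.ker_domRestrict] at h1
  have h2 : Module.finrank F ↥((LinearMap.ker g).comap G.subtype) =
      Module.finrank F ↥(G ⊓ LinearMap.ker g) := by
    rw [← Submodule.map_comap_subtype]
    exact (Submodule.finrank_map_subtype_eq _ _).symm
  omega

end

theorem les : LESStmt := by
  intro F _ X Y _ _ _ _ _ _ d e f S T U hd he hef hS hT hU hTS hSf hSU hS0 hT0 hU0 hST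
  intro h k
  -- cycles and boundaries
  have ZB : ∀ (G : ℕ → Submodule F X), (∀ k, (G (k + 1)).map d ≤ G k) → ∀ k,
      (G (k + 1)).map d ≤ G k ⊓ LinearMap.ker d := by
    intro G hG k
    refine le_inf (hG k) ?_
    rintro _ ⟨x, _, rfl⟩
    exact LinearMap.mem_ker.2 (hd x)
  have ZBU : ∀ k, (U (k + 1)).map e ≤ U k ⊓ LinearMap.ker e := by
    intro k
    refine le_inf (hU k) ?_
    rintro _ ⟨x, _, rfl⟩
    exact LinearMap.mem_ker.2 (he x)
  have bS := fun k => Submodule.finrank_mono (ZB S hS k)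
  have bT := fun k => Submodule.finrank_mono (ZB T hT k)
  have bU := fun k => Submodule.finrank_mono (ZBU k)
  -- image of the cycles of `S`
  have fZ : ∀ k, (S (k + 1) ⊓ LinearMap.ker d).map f ≤ U k ⊓ LinearMap.ker e := by
    intro k
    rintro _ ⟨x, ⟨hx, hx'⟩, rfl⟩
    refine ⟨hSU k ▸ Submodule.mem_map_of_mem hx, ?_⟩
    have : d x = 0 := hx'
    exact LinearMap.mem_ker.2 (by rw [hef, this, map_zero, neg_zero])
  have kZ : ∀ k, (S k ⊓ LinearMap.ker d) ⊓ LinearMap.ker f = T k ⊓ LinearMap.ker d := by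
    intro k
    rw [← hSf k]
    ac_rfl
  -- image of the boundaries of `S`
  have fB : ∀ k, ((S (k + 1 + 1)).map d).map f = (U (k + 1)).map e := by
    intro k
    rw [← hSU (k + 1)]
    apply le_antisymm
    · rintro _ ⟨_, ⟨x, hx, rfl⟩, rfl⟩
      refine ⟨f (-x), Submodule.mem_map_of_mem (neg_mem hx), ?_⟩
      rw [hef, map_neg, map_neg, neg_neg]
    · rintro _ ⟨_, ⟨x, hx, rfl⟩, rfl⟩
      refine ⟨d (-x), Submodule.mem_map_of_mem (neg_mem hx), ?_⟩
      rw [hef, map_neg, map_neg]
  have fB0 : ((S 1).map d).map f = ⊥ := by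
    rw [eq_bot_iff]
    rintro _ ⟨x, hx, rfl⟩
    have h1 : x ∈ S 0 := hS 0 hx
    rw [hST, ← hSf 0] at h1
    exact h1.2
  -- the space `C`
  have hC : ∀ k, Module.finrank F ↥((S (k + 1)).map d ⊓ LinearMap.ker f) +
      Module.finrank F ↥(S (k + 1) ⊓ LinearMap.ker d) =
      Module.finrank F ↥(T (k + 1)) + Module.finrank F ↥(U k ⊓ LinearMap.ker e) := by
    intro k
    have hPm : (S (k + 1) ⊓ (U k ⊓ LinearMap.ker e).comap f).map d =
        (S (k + 1)).map d ⊓ LinearMap.ker f := by
      apply le_antisymm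
      · rintro _ ⟨x, ⟨hx, hx'⟩, rfl⟩
        refine ⟨Submodule.mem_map_of_mem hx, LinearMap.mem_ker.2 ?_⟩
        have h1 : e (f x) = 0 := hx'.2
        rw [hef, neg_eq_zero] at h1
        exact h1
      · rintro _ ⟨⟨x, hx, rfl⟩, hx'⟩
        refine ⟨x, ⟨hx, ?_, ?_⟩, rfl⟩
        · exact hSU k ▸ Submodule.mem_map_of_mem hx
        · have h1 : f (d x) = 0 := hx'
          exact LinearMap.mem_ker.2 (by rw [hef, h1, neg_zero])
    have hPk : (S (k + 1) ⊓ (U k ⊓ LinearMap.ker e).comap f) ⊓ LinearMap.ker d =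
        S (k + 1) ⊓ LinearMap.ker d := by
      apply le_antisymm
      · exact le_inf (inf_le_left.trans inf_le_left) inf_le_right
      · rintro x ⟨hx, hx'⟩
        exact ⟨⟨hx, fZ k (Submodule.mem_map_of_mem ⟨hx, hx'⟩)⟩, hx'⟩
    have hPf : (S (k + 1) ⊓ (U k ⊓ LinearMap.ker e).comap f).map f =
        U k ⊓ LinearMap.ker e := by
      apply le_antisymm
      · rintro _ ⟨x, ⟨_, hx'⟩, rfl⟩
        exact hx'
      · rintro y hy
        have h1 : y ∈ (S (k + 1)).map f := (hSU k).symm ▸ hy.1
        obtain ⟨x, hx, rfl⟩ := h1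
        exact ⟨x, ⟨hx, hy⟩, rfl⟩
    have hPfk : (S (k + 1) ⊓ (U k ⊓ LinearMap.ker e).comap f) ⊓ LinearMap.ker f = T (k + 1) := by
      rw [← hSf (k + 1)]
      apply le_antisymm
      · exact le_inf (inf_le_left.trans inf_le_left) inf_le_right
      · rintro x ⟨hx, hx'⟩
        refine ⟨⟨hx, ?_⟩, hx'⟩
        have h1 : f x = 0 := hx'
        refine Submodule.mem_comap.2 ?_
        rw [h1]
        exact zero_mem _
    have h1 := les_rn (S (k + 1) ⊓ (U k ⊓ LinearMap.ker e).comap f) d
    have h2 := les_rn (S (k + 1) ⊓ (U k ⊓ LinearMap.ker e).comap f) f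
    rw [hPm, hPk] at h1
    rw [hPf, hPfk] at h2
    omega
  -- `C` lies between the boundaries and the cycles of `T`
  have CZ : ∀ k, (S (k + 1)).map d ⊓ LinearMap.ker f ≤ T k ⊓ LinearMap.ker d := by
    intro k
    rw [← kZ k]
    exact inf_le_inf_right _ (ZB S hS k)
  have CZ' : ∀ k, (T k ⊓ LinearMap.ker d) ⊓ (S (k + 1)).map d =
      (S (k + 1)).map d ⊓ LinearMap.ker f := by
    intro k
    apply le_antisymm
    · refine le_inf inf_le_right (inf_le_left.trans (inf_le_left.trans ?_))
      rw [← hSf k]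
      exact inf_le_right
    · exact le_inf (CZ k) inf_le_left
  -- the dimensions
  have hCS : ∀ k, Module.finrank F ↥(T k ⊓ LinearMap.ker d) +
      Module.finrank F ↥((S (k + 1)).map d) ≤ Module.finrank F ↥(S k ⊓ LinearMap.ker d) +
      Module.finrank F ↥((S (k + 1)).map d ⊓ LinearMap.ker f) := by
    intro k
    have h1 := Submodule.finrank_sup_add_finrank_inf_eq (T k ⊓ LinearMap.ker d)
      ((S (k + 1)).map d)
    rw [CZ' k] at h1
    have h2 : (T k ⊓ LinearMap.ker d) ⊔ (S (k + 1)).map d ≤ S k ⊓ LinearMap.ker d :=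
      sup_le (inf_le_inf_right _ (hTS k)) (ZB S hS k)
    have h3 := Submodule.finrank_mono h2
    omega
  have rT := fun k => les_rn (T (k + 1)) d
  have rS := fun k => les_rn (S (k + 1)) d
  have rU := fun k => les_rn (U (k + 1)) e
  have hCZ := fun k => Submodule.finrank_mono (CZ k)
  have rZ : ∀ k, Module.finrank F ↥(T (k + 1) ⊓ LinearMap.ker d) +
      Module.finrank F ↥((S (k + 1) ⊓ LinearMap.ker d).map f) =
      Module.finrank F ↥(S (k + 1) ⊓ LinearMap.ker d) := by
    intro k
    have h1 := les_rn (S (k + 1) ⊓ LinearMap.ker d) f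
    rw [kZ (k + 1)] at h1
    exact h1
  have rB : ∀ k, Module.finrank F ↥((S (k + 1 + 1)).map d ⊓ LinearMap.ker f) +
      Module.finrank F ↥((U (k + 1)).map e) = Module.finrank F ↥((S (k + 1 + 1)).map d) := by
    intro k
    have h1 := les_rn ((S (k + 1 + 1)).map d) f
    rw [fB k] at h1
    exact h1
  have mZ : ∀ k, Module.finrank F ↥((S (k + 1) ⊓ LinearMap.ker d).map f) ≤
      Module.finrank F ↥(U k ⊓ LinearMap.ker e) := fun k => Submodule.finrank_mono (fZ k)
  have mB : ∀ k, Module.finrank F ↥((U (k + 1)).map e) ≤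
      Module.finrank F ↥((S (k + 1) ⊓ LinearMap.ker d).map f) := by
    intro k
    rw [← fB k]
    exact Submodule.finrank_mono (Submodule.map_mono (ZB S hS (k + 1)))
  have TB : ∀ k, (T (k + 1)).map d ≤ (S (k + 1)).map d ⊓ LinearMap.ker f := by
    intro k
    refine le_inf (Submodule.map_mono (hTS _)) ((hT k).trans ?_)
    rw [← hSf k]
    exact inf_le_right
  have mTB := fun k => Submodule.finrank_mono (TB k)
  refine ⟨?_, ?_, ?_, ?_⟩
  · show _ - _ ≤ _ - _
    have h1 : S 0 ⊓ LinearMap.ker d = T 0 ⊓ LinearMap.ker d := by rw [hST]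
    rw [h1]
    have h2 := Submodule.finrank_mono (Submodule.map_mono (f := d) (hTS (0 + 1)))
    omega
  · show _ - _ ≤ (_ - _) + (_ - _)
    have a1 := rZ k
    have a2 := rB k
    have a3 := mZ k
    have a4 := mTB (k + 1)
    have a5 := bS (k + 1)
    have a6 := bT (k + 1)
    have a7 := bU k
    have a8 := mB k
    omega
  · show _ - _ ≤ (_ - _) + (_ - _)
    have a1 := hCS k
    have a2 := hC k
    have a3 := rT k
    have a4 := rZ k
    have a5 := mB k
    have a6 := bS k
    have a7 := bT k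
    have a8 := bU k
    omega
  · show _ - _ ≤ (_ - _) + (_ - _)
    have a1 := hC k
    have a2 := rT k
    have a3 := rZ k
    have a4 := hCZ k
    have a5 := rB k
    have a6 := CZ (k + 1)
    have a7 := mTB (k + 1)
    have a8 := bS (k + 1)
    have a9 := bT k
    have a10 := bU k
    have a11 := mTB k
    have a12 : Module.finrank F ↥((S (k + 1 + 1)).map d ⊓ LinearMap.ker f) ≤
        Module.finrank F ↥(T (k + 1) ⊓ LinearMap.ker d) := Submodule.finrank_mono (CZ (k + 1))
    omega

end Pool.LU
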